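import Pool.Agent.Helper94.SM.Pair

/-!
# Project SM, block TR1: the second moment for transversals
-/

set_option autoImplicit false
set_option linter.unusedSectionVars false

open MeasureTheory Set Filter Topology

namespace Pool.Agent.Helper63.SM

variable {X : Type*} [MeasurableSpace X] {μ : Measure X} [IsProbabilityMeasure μ]
  {R : X → X → Prop} {k r : ℕ}

theorem meas_IndS (hR : MeasurableSet {p : X × X | R p.1 p.2}) (S : Finset (Fin k)) :
    MeasurableSet (IndS R S) := by
  have h : IndS R S = ⋂ i : Fin k, ⋂ j : Fin k,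
      {x : Fin k → X | i ∈ S → j ∈ S → i ≠ j → ¬ R (x i) (x j)} := by
    ext x
    simp only [IndS, mem_ofPred_eq, mem_iInter]
    exact ⟨fun h i j hi hj hij => h i hi j hj hij, fun h i hi j hj hij => h i j hi hj hij⟩
  rw [h]
  refine MeasurableSet.iInter fun i => MeasurableSet.iInter fun j => ?_
  by_cases hc : i ∈ S ∧ j ∈ S ∧ i ≠ j
  · have h2 : {x : Fin k → X | i ∈ S → j ∈ S → i ≠ j → ¬ R (x i) (x j)} =
        (fun x : Fin k → X => (x i, x j)) ⁻¹' {p : X × X | R p.1 p.2}ᶜ := by
      ext x
      simp only [mem_ofPred_eq, mem_preimage, mem_compl_iff]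
      exact ⟨fun h => h hc.1 hc.2.1 hc.2.2, fun h _ _ _ => h⟩
    rw [h2]
    exact ((measurable_pi_apply i).prodMk (measurable_pi_apply j)) hR.compl
  · have h2 : {x : Fin k → X | i ∈ S → j ∈ S → i ≠ j → ¬ R (x i) (x j)} = univ := by
      ext x
      simp only [mem_ofPred_eq, mem_univ, iff_true]
      exact fun h1 h2 h3 => absurd ⟨h1, h2, h3⟩ hc
    rw [h2]
    exact MeasurableSet.univ

theorem meas_pw_const (V : Finset (Fin k)) (u : Fin k → X) :
    Measurable fun y : Fin k → X => V.piecewise u y :=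
  (measurable_pw V).comp (measurable_const.prodMk measurable_id)

theorem ind_mul {Ω : Type*} (s t : Set Ω) :
    (fun ω => s.indicator (fun _ => (1 : ℝ)) ω * t.indicator (fun _ => (1 : ℝ)) ω) =
      (s ∩ t).indicator fun _ => (1 : ℝ) := by
  funext ω
  by_cases hs : ω ∈ s
  · by_cases ht : ω ∈ t
    · have h : ω ∈ s ∩ t := ⟨hs, ht⟩
      rw [indicator_of_mem hs, indicator_of_mem ht, indicator_of_mem h, mul_one]
    · rw [indicator_of_notMem ht, indicator_of_notMem (fun h : ω ∈ s ∩ t => ht h.2), mul_zero]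
  · rw [indicator_of_notMem hs, indicator_of_notMem (fun h : ω ∈ s ∩ t => hs h.1), zero_mul]

/-- the pair estimate -/
theorem pair_le (hR : MeasurableSet {p : X × X | R p.1 p.2})
    (V : Finset (Fin k)) (u : Fin k → X) {G : Set (Fin k → X)} (hG : MeasurableSet G)
    (hGI : G ⊆ IndS R Finset.univ) {Λ g : ℝ}
    (hGe : ∀ y ∈ G, (∀ i ∈ V, y i = u i) → ∀ S : Finset (Fin k), V ⊆ S →
      ex μ R S y ≤ ex μ R V u * Λ ^ (S.card - V.card))
    (hg : g = (Measure.pi fun _ : Fin k => μ).real {y | V.piecewise u y ∈ G})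
    (c c' : Fin k → Fin r) :
    (Measure.pi fun _ : Fin k => Measure.pi fun _ : Fin r => μ).real
      ({ω | V.piecewise u (fun b => ω b (c b)) ∈ G} ∩
        {ω | V.piecewise u (fun b => ω b (c' b)) ∈ G}) ≤
      g * (ex μ R V u *
        Λ ^ ((V ∪ Finset.univ.filter fun b => c b = c' b).card - V.card)) := by
  set D : Finset (Fin k) := Finset.univ.filter fun b => c b = c' b with hD
  set S : Finset (Fin k) := V ∪ D with hS
  have hVS : V ⊆ S := Finset.subset_union_left
  set P := Measure.pi fun _ : Fin k => Measure.pi fun _ : Fin r => μ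
  set π := Measure.pi fun _ : Fin k => μ
  have hInd := meas_IndS (k := k) hR Finset.univ
  -- the sets in the product
  set E : Set ((Fin k → X) × (Fin k → X)) :=
    {q | V.piecewise u q.1 ∈ G ∧ V.piecewise u q.2 ∈ G} with hE
  have mE : MeasurableSet E :=
    (((meas_pw_const V u).comp measurable_fst) hG).inter
      (((meas_pw_const V u).comp measurable_snd) hG)
  have mT : Measurable fun ω : Fin k → Fin r → X =>
      ((fun b => ω b (c b)), fun b => ω b (c' b)) :=
    (mp_sel μ c).measurable.prodMk (mp_sel μ c').measurable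
  have mQ : Measurable fun q : (Fin k → X) × (Fin k → X) => (q.1, D.piecewise q.1 q.2) :=
    measurable_fst.prodMk (measurable_pw _)
  have h1 : P.real ({ω | V.piecewise u (fun b => ω b (c b)) ∈ G} ∩
      {ω | V.piecewise u (fun b => ω b (c' b)) ∈ G}) =
      (π.prod π).real ((fun q : (Fin k → X) × (Fin k → X) => (q.1, D.piecewise q.1 q.2)) ⁻¹' E) := by
    rw [Measure.real, Measure.real, ← Measure.map_apply mQ mE, ← map_pair μ c c',
      Measure.map_apply mT mE]
    rfl
  set F : Set ((Fin k → X) × (Fin k → X)) :=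
    {q | V.piecewise u q.1 ∈ G ∧ S.piecewise (V.piecewise u q.1) q.2 ∈ IndS R Finset.univ} with hF
  have mS : Measurable fun q : (Fin k → X) × (Fin k → X) => S.piecewise (V.piecewise u q.1) q.2 :=
    (measurable_pw S).comp (((meas_pw_const V u).comp measurable_fst).prodMk measurable_snd)
  have mF : MeasurableSet F :=
    (((meas_pw_const V u).comp measurable_fst) hG).inter (mS hInd)
  have h2 : (fun q : (Fin k → X) × (Fin k → X) => (q.1, D.piecewise q.1 q.2)) ⁻¹' E ⊆ F := by
    rintro q ⟨hq1, hq2⟩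
    refine ⟨hq1, ?_⟩
    have h3 : V.piecewise u (D.piecewise q.1 q.2) = S.piecewise (V.piecewise u q.1) q.2 := by
      funext i
      by_cases hi : i ∈ V
      · simp [Finset.piecewise, hi, hS]
      · by_cases hi' : i ∈ D
        · simp [Finset.piecewise, hi, hi', hS]
        · simp [Finset.piecewise, hi, hi', hS]
    rw [← h3]
    exact hGI hq2
  rw [h1]
  refine (measureReal_mono h2).trans ?_
  have h4 : (π.prod π).real F = ∫ q, F.indicator (fun _ => (1 : ℝ)) q ∂(π.prod π) := by
    rw [integral_indicator mF, setIntegral_const, smul_eq_mul, mul_one]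
  have hi : Integrable (F.indicator fun _ => (1 : ℝ)) (π.prod π) :=
    (integrable_const (1 : ℝ)).indicator mF
  rw [h4, integral_prod _ hi]
  have h5 : ∀ y : Fin k → X, ∫ y', F.indicator (fun _ => (1 : ℝ)) (y, y') ∂π =
      {y | V.piecewise u y ∈ G}.indicator (fun y => ex μ R S (V.piecewise u y)) y := by
    intro y
    by_cases hy : V.piecewise u y ∈ G
    · rw [indicator_of_mem (show y ∈ {y | V.piecewise u y ∈ G} from hy)]
      unfold ex mg
      congr 1
      funext y'
      by_cases hy' : S.piecewise (V.piecewise u y) y' ∈ IndS R Finset.univ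
      · rw [indicator_of_mem (show (y, y') ∈ F from ⟨hy, hy'⟩), indicator_of_mem hy']
      · rw [indicator_of_notMem (show (y, y') ∉ F from fun h => hy' h.2), indicator_of_notMem hy']
    · rw [indicator_of_notMem (show y ∉ {y | V.piecewise u y ∈ G} from hy)]
      have h6 : ∀ y', F.indicator (fun _ => (1 : ℝ)) (y, y') = 0 := fun y' =>
        indicator_of_notMem (fun h => hy h.1) _
      simp [h6]
  simp only [h5]
  have mV : MeasurableSet {y | V.piecewise u y ∈ G} := (meas_pw_const V u) hG
  have h7 : ∀ y, {y | V.piecewise u y ∈ G}.indicator (fun y => ex μ R S (V.piecewise u y)) y ≤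
      {y | V.piecewise u y ∈ G}.indicator
        (fun _ => ex μ R V u * Λ ^ (S.card - V.card)) y := by
    intro y
    by_cases hy : V.piecewise u y ∈ G
    · rw [indicator_of_mem (show y ∈ {y | V.piecewise u y ∈ G} from hy),
        indicator_of_mem (show y ∈ {y | V.piecewise u y ∈ G} from hy)]
      exact hGe _ hy (fun i hi => by simp [Finset.piecewise, hi]) S hVS
    · rw [indicator_of_notMem (show y ∉ {y | V.piecewise u y ∈ G} from hy),
        indicator_of_notMem (show y ∉ {y | V.piecewise u y ∈ G} from hy)]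
  have h8 : ∀ y, 0 ≤ {y | V.piecewise u y ∈ G}.indicator
      (fun y => ex μ R S (V.piecewise u y)) y := by
    intro y
    refine indicator_nonneg (fun y _ => ?_) y
    exact integral_nonneg fun _ => indicator_nonneg (fun _ _ => zero_le_one) _
  have h9 : ∫ y, {y | V.piecewise u y ∈ G}.indicator
      (fun y => ex μ R S (V.piecewise u y)) y ∂π ≤
      ∫ y, {y | V.piecewise u y ∈ G}.indicator
        (fun _ => ex μ R V u * Λ ^ (S.card - V.card)) y ∂π := by
    refine integral_mono_of_nonneg (ae_of_all _ h8) ?_ (ae_of_all _ h7)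
    exact (integrable_const _).indicator mV
  refine h9.trans (le_of_eq ?_)
  rw [integral_indicator mV, setIntegral_const, smul_eq_mul, hg]

/-- the number of the pairs -/
theorem sum_pairs {V : Finset (Fin k)} {Λ : ℝ} (hΛ : 0 ≤ Λ) (c : Fin k → Fin r) :
    ∑ c' : Fin k → Fin r, Λ ^ ((V ∪ Finset.univ.filter fun b => c b = c' b).card - V.card) ≤
      (r + Λ) ^ k := by
  have h1 : ∀ c' : Fin k → Fin r,
      Λ ^ ((V ∪ Finset.univ.filter fun b => c b = c' b).card - V.card) =
        ∏ b : Fin k, (if b ∉ V ∧ c b = c' b then Λ else 1) := by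
    intro c'
    rw [Finset.prod_ite, Finset.prod_const, Finset.prod_const_one, mul_one]
    congr 1
    have h2 : V ∪ Finset.univ.filter (fun b => c b = c' b) =
        V ∪ Finset.univ.filter (fun b => b ∉ V ∧ c b = c' b) := by
      ext b
      simp only [Finset.mem_union, Finset.mem_filter, Finset.mem_univ, true_and]
      tauto
    rw [h2, Finset.card_union_of_disjoint, Nat.add_sub_cancel_left]
    rw [Finset.disjoint_left]
    intro b hb hb'
    exact (Finset.mem_filter.1 hb').2.1 hb
  simp only [h1]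
  have h3 := Finset.prod_univ_sum (fun _ : Fin k => (Finset.univ : Finset (Fin r)))
    (fun b j => if b ∉ V ∧ c b = j then Λ else 1)
  rw [Fintype.piFinset_univ] at h3
  rw [← h3]
  have h4 : ∏ _i : Fin k, ((r : ℝ) + Λ) = (r + Λ) ^ k := by
    rw [Finset.prod_const, Finset.card_univ, Fintype.card_fin]
  rw [← h4]
  refine Finset.prod_le_prod (fun b _ => Finset.sum_nonneg fun j _ => by split_ifs <;> positivity)
    fun b _ => ?_
  have h5 : ∀ j : Fin r, (if b ∉ V ∧ c b = j then Λ else (1 : ℝ)) ≤
      1 + if c b = j then Λ else 0 := by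
    intro j
    by_cases hb : b ∈ V <;> by_cases hj : c b = j <;> simp [hb, hj, hΛ]
  refine (Finset.sum_le_sum fun j _ => h5 j).trans (le_of_eq ?_)
  rw [Finset.sum_add_distrib, Finset.sum_const, Finset.card_univ, Fintype.card_fin,
    Finset.sum_ite_eq]
  simp

/-- second moment, relative to fixed points in the coordinates `V` -/
theorem second_moment (hR : MeasurableSet {p : X × X | R p.1 p.2}) {r : ℕ} (hr : 1 ≤ r)
    (V : Finset (Fin k)) (u : Fin k → X) {G : Set (Fin k → X)} (hG : MeasurableSet G)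
    (hGI : G ⊆ IndS R Finset.univ) {Λ g : ℝ} (hΛ : 0 ≤ Λ)
    (hGe : ∀ y ∈ G, (∀ i ∈ V, y i = u i) → ∀ S : Finset (Fin k), V ⊆ S →
      ex μ R S y ≤ ex μ R V u * Λ ^ (S.card - V.card))
    (hg : g = (Measure.pi fun _ : Fin k => μ).real {y | V.piecewise u y ∈ G}) (hg0 : 0 < g) :
    g / (ex μ R V u * (1 + Λ / r) ^ k) ≤
      (Measure.pi fun _ : Fin k => Measure.pi fun _ : Fin r => μ).real
        {ω | ∃ c : Fin k → Fin r, V.piecewise u (fun b => ω b (c b)) ∈ G} := by
  set P := Measure.pi fun _ : Fin k => Measure.pi fun _ : Fin r => μ with hP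
  set A : (Fin k → Fin r) → Set (Fin k → Fin r → X) := fun c =>
    {ω | V.piecewise u (fun b => ω b (c b)) ∈ G} with hA
  have mV : MeasurableSet {y | V.piecewise u y ∈ G} := (meas_pw_const V u) hG
  have mA : ∀ c, MeasurableSet (A c) := fun c => (mp_sel μ c).measurable mV
  have hAg : ∀ c, P.real (A c) = g := by
    intro c
    rw [hg]
    have := (mp_sel (r := r) μ c).measure_preimage mV.nullMeasurableSet
    rw [Measure.real, Measure.real, ← this]
    rfl
  set U : Set (Fin k → Fin r → X) :=
    {ω | ∃ c : Fin k → Fin r, V.piecewise u (fun b => ω b (c b)) ∈ G} with hU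
  have hUA : U = ⋃ c, A c := by
    ext ω
    simp [hU, hA]
  have mU : MeasurableSet U := by
    rw [hUA]
    exact MeasurableSet.iUnion mA
  have hex : 0 ≤ ex μ R V u := integral_nonneg fun _ => indicator_nonneg (fun _ _ => zero_le_one) _
  have hr0 : (0 : ℝ) < r := by exact_mod_cast hr
  have hΛ1 : 0 < (1 + Λ / r) ^ k := by positivity
  rcases hex.eq_or_lt with h0 | h0
  · rw [← h0, zero_mul, div_zero]
    exact measureReal_nonneg
  -- the random variable
  set Y : (Fin k → Fin r → X) → ℝ := fun ω => ∑ c, (A c).indicator (fun _ => (1 : ℝ)) ω with hY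
  have iA : ∀ c, Integrable ((A c).indicator fun _ => (1 : ℝ)) P := fun c =>
    (integrable_const (1 : ℝ)).indicator (mA c)
  have iAA : ∀ c c', Integrable (fun ω => (A c).indicator (fun _ => (1 : ℝ)) ω *
      (A c').indicator (fun _ => (1 : ℝ)) ω) P := by
    intro c c'
    rw [ind_mul]
    exact (integrable_const (1 : ℝ)).indicator ((mA c).inter (mA c'))
  have e1 : ∫ ω, Y ω ∂P = (r : ℝ) ^ k * g := by
    rw [hY, integral_finsetSum _ fun c _ => iA c]
    have h : ∀ c, ∫ ω, (A c).indicator (fun _ => (1 : ℝ)) ω ∂P = g := by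
      intro c
      rw [integral_indicator (mA c), setIntegral_const, smul_eq_mul, mul_one, hAg]
    simp only [h]
    rw [Finset.sum_const, Finset.card_univ, Fintype.card_fun, Fintype.card_fin, Fintype.card_fin,
      nsmul_eq_mul]
    push_cast
    ring
  have iY : Integrable Y P := integrable_finsetSum _ fun c _ => iA c
  have hYY : ∀ ω, Y ω ^ 2 = ∑ c, ∑ c', (A c).indicator (fun _ => (1 : ℝ)) ω *
      (A c').indicator (fun _ => (1 : ℝ)) ω := by
    intro ω
    rw [hY, sq, Finset.sum_mul_sum]
  have iY2 : Integrable (fun ω => Y ω ^ 2) P := by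
    simp only [hYY]
    exact integrable_finsetSum _ fun c _ => integrable_finsetSum _ fun c' _ => iAA c c'
  have e2 : ∫ ω, Y ω ^ 2 ∂P ≤ (r : ℝ) ^ k * (g * (ex μ R V u * (r + Λ) ^ k)) := by
    simp only [hYY]
    rw [integral_finsetSum _ fun c _ => integrable_finsetSum _ fun c' _ => iAA c c']
    have h : ∀ c : Fin k → Fin r, ∫ ω, ∑ c', (A c).indicator (fun _ => (1 : ℝ)) ω *
        (A c').indicator (fun _ => (1 : ℝ)) ω ∂P ≤ g * (ex μ R V u * (r + Λ) ^ k) := by
      intro c
      rw [integral_finsetSum _ fun c' _ => iAA c c']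
      have h2 : ∀ c', ∫ ω, (A c).indicator (fun _ => (1 : ℝ)) ω *
          (A c').indicator (fun _ => (1 : ℝ)) ω ∂P ≤ g * (ex μ R V u *
            Λ ^ ((V ∪ Finset.univ.filter fun b => c b = c' b).card - V.card)) := by
        intro c'
        rw [ind_mul, integral_indicator ((mA c).inter (mA c')), setIntegral_const, smul_eq_mul, mul_one]
        exact pair_le hR V u hG hGI hGe hg c c'
      refine (Finset.sum_le_sum fun c' _ => h2 c').trans ?_
      rw [← Finset.mul_sum, ← Finset.mul_sum]
      exact mul_le_mul_of_nonneg_left (mul_le_mul_of_nonneg_left (sum_pairs hΛ c) hex) hg0.le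
    refine (Finset.sum_le_sum fun c _ => h c).trans (le_of_eq ?_)
    rw [Finset.sum_const, Finset.card_univ, Fintype.card_fun, Fintype.card_fin, Fintype.card_fin,
      nsmul_eq_mul]
    push_cast
    ring
  -- Cauchy-Schwarz
  set m1 := ∫ ω, Y ω ∂P with hm1
  set m2 := ∫ ω, Y ω ^ 2 ∂P with hm2
  have hm1p : 0 < m1 := by
    rw [e1]
    positivity
  have hYU : ∀ ω, ω ∉ U → Y ω = 0 := by
    intro ω hω
    rw [hY]
    refine Finset.sum_eq_zero fun c _ => indicator_of_notMem (fun h => hω ?_) _
    exact ⟨c, h⟩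
  have hcs : ∀ t : ℝ, 0 ≤ m2 - 2 * t * m1 + t ^ 2 * P.real U := by
    intro t
    have h : ∫ ω, (Y ω - t * U.indicator (fun _ => (1 : ℝ)) ω) ^ 2 ∂P =
        m2 - 2 * t * m1 + t ^ 2 * P.real U := by
      have h2 : ∀ ω, (Y ω - t * U.indicator (fun _ => (1 : ℝ)) ω) ^ 2 =
          Y ω ^ 2 - 2 * t * Y ω + t ^ 2 * U.indicator (fun _ => (1 : ℝ)) ω := by
        intro ω
        by_cases hω : ω ∈ U
        · rw [indicator_of_mem hω]
          ring
        · rw [indicator_of_notMem hω, hYU ω hω]
          ring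
      simp only [h2]
      have i1 : Integrable (fun ω => 2 * t * Y ω) P := iY.const_mul _
      have i2 : Integrable (fun ω => t ^ 2 * U.indicator (fun _ => (1 : ℝ)) ω) P :=
        ((integrable_const (1 : ℝ)).indicator mU).const_mul _
      have i3 : Integrable (fun ω => Y ω ^ 2 - 2 * t * Y ω) P := iY2.sub i1
      rw [integral_add i3 i2, integral_sub iY2 i1, integral_const_mul, integral_const_mul,
        integral_indicator mU, setIntegral_const, smul_eq_mul, mul_one]
    rw [← h]
    exact integral_nonneg fun _ => sq_nonneg _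
  have hm2p : 0 < m2 := by
    by_contra hneg
    have hm2z : m2 = 0 := le_antisymm (not_lt.1 hneg) (integral_nonneg fun _ => sq_nonneg _)
    have hU1 : P.real U ≤ 1 := measureReal_le_one
    have h := hcs m1
    rw [hm2z] at h
    nlinarith [sq_nonneg m1, mul_pos hm1p hm1p, measureReal_nonneg (μ := P) (s := U)]
  have hfin : m1 ^ 2 ≤ m2 * P.real U := by
    have h := hcs (m2 / m1)
    have h2 : m2 - 2 * (m2 / m1) * m1 + (m2 / m1) ^ 2 * P.real U =
        (m2 / m1 ^ 2) * (m2 * P.real U - m1 ^ 2) := by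
      field_simp
      ring
    rw [h2] at h
    have h3 : 0 < m2 / m1 ^ 2 := by positivity
    nlinarith [(mul_nonneg_iff_of_pos_left h3).1 h]
  -- conclusion
  have h10 : (r : ℝ) ^ k * (r + Λ) ^ k = (r : ℝ) ^ k * (r : ℝ) ^ k * (1 + Λ / r) ^ k := by
    have : ((r : ℝ) + Λ) = r * (1 + Λ / r) := by
      field_simp
    rw [this, mul_pow]
    ring
  rw [div_le_iff₀ (by positivity)]
  have h11 : m2 * P.real U ≤ (r : ℝ) ^ k * (g * (ex μ R V u * (r + Λ) ^ k)) * P.real U :=
    mul_le_mul_of_nonneg_right e2 measureReal_nonneg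
  have h12 : (r : ℝ) ^ k * (g * (ex μ R V u * (r + Λ) ^ k)) * P.real U =
      ((r : ℝ) ^ k * (r : ℝ) ^ k * g) * (P.real U * (ex μ R V u * (1 + Λ / r) ^ k)) := by
    calc (r : ℝ) ^ k * (g * (ex μ R V u * (r + Λ) ^ k)) * P.real U
        = ((r : ℝ) ^ k * (r + Λ) ^ k) * (g * ex μ R V u * P.real U) := by ring
      _ = _ := by rw [h10]; ring
  have h13 : m1 ^ 2 = ((r : ℝ) ^ k * (r : ℝ) ^ k * g) * g := by
    rw [e1]
    ring
  have h14 := (hfin.trans h11)
  rw [h12, h13] at h14
  exact le_of_mul_le_mul_left h14 (by positivity)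

end Pool.Agent.Helper63.SM
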