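import Pool.Agent.Helper5.SM.Marg

/-!
# Project SM, block TR1, part 1: the law of two transversals
-/

set_option autoImplicit false
set_option linter.unusedSectionVars false

open MeasureTheory Set Filter Topology

namespace Pool.Agent.Helper63.SM

variable {X : Type*} [MeasurableSpace X] {k r : ℕ}

theorem mp_sel (μ : Measure X) [IsProbabilityMeasure μ] (c : Fin k → Fin r) :
    MeasurePreserving (fun (ω : Fin k → Fin r → X) (b : Fin k) => ω b (c b))
      (Measure.pi fun _ : Fin k => Measure.pi fun _ : Fin r => μ)
      (Measure.pi fun _ : Fin k => μ) :=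
  measurePreserving_pi (fun _ : Fin k => Measure.pi fun _ : Fin r => μ) (fun _ : Fin k => μ)
    (f := fun b (z : Fin r → X) => z (c b)) fun b => measurePreserving_eval (fun _ => μ) (c b)

theorem map_two (μ : Measure X) [IsProbabilityMeasure μ] (j j' : Fin r) :
    Measure.map (fun z : Fin r → X => (z j, z j')) (Measure.pi fun _ : Fin r => μ) =
      Measure.map (fun q : X × X => (q.1, if j = j' then q.1 else q.2)) (μ.prod μ) := by
  by_cases h : j = j'
  · subst h
    simp only [if_true]
    have hd : Measurable fun x : X => (x, x) := measurable_id.prodMk measurable_id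
    have h1 := Measure.map_map (μ := Measure.pi fun _ : Fin r => μ) hd (measurable_pi_apply j)
    have h2 := Measure.map_map (μ := μ.prod μ) hd measurable_fst
    have h3 : Measure.map (fun z : Fin r → X => z j) (Measure.pi fun _ : Fin r => μ) = μ :=
      (measurePreserving_eval (fun _ : Fin r => μ) j).map_eq
    have h4 : Measure.map (Prod.fst : X × X → X) (μ.prod μ) = μ :=
      (measurePreserving_fst (μ := μ) (ν := μ)).map_eq
    rw [h3] at h1
    rw [h4] at h2
    exact h1.symm.trans h2
  · simp only [h, if_false]
    have hid : (fun q : X × X => (q.1, q.2)) = id := rfl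
    rw [hid, Measure.map_id]
    have hpw := mp_pw (k := r) μ {j}
    have he : Measurable fun z : Fin r → X => (z j, z j') :=
      (measurable_pi_apply j).prodMk (measurable_pi_apply j')
    have h1 := Measure.map_map (μ := (Measure.pi fun _ : Fin r => μ).prod
      (Measure.pi fun _ : Fin r => μ)) he (measurable_pw ({j} : Finset (Fin r)))
    rw [hpw.map_eq] at h1
    rw [h1]
    have h2 : ((fun z : Fin r → X => (z j, z j')) ∘
        fun q : (Fin r → X) × (Fin r → X) => ({j} : Finset (Fin r)).piecewise q.1 q.2) =
        Prod.map (Function.eval j) (Function.eval j') := by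
      funext q
      simp [Finset.piecewise, Ne.symm h]
      rfl
    rw [h2]
    exact ((measurePreserving_eval (fun _ : Fin r => μ) j).prod
      (measurePreserving_eval (fun _ : Fin r => μ) j')).map_eq

theorem map_pair (μ : Measure X) [IsProbabilityMeasure μ] (c c' : Fin k → Fin r) :
    Measure.map (fun ω : Fin k → Fin r → X => ((fun b => ω b (c b)), fun b => ω b (c' b)))
        (Measure.pi fun _ : Fin k => Measure.pi fun _ : Fin r => μ) =
      Measure.map (fun q : (Fin k → X) × (Fin k → X) =>
          (q.1, (Finset.univ.filter fun b => c b = c' b).piecewise q.1 q.2))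
        ((Measure.pi fun _ : Fin k => μ).prod (Measure.pi fun _ : Fin k => μ)) := by
  have hT : ∀ b : Fin k, Measurable fun z : Fin r → X => (z (c b), z (c' b)) := fun b =>
    (measurable_pi_apply _).prodMk (measurable_pi_apply _)
  have hU : ∀ b : Fin k, Measurable fun q : X × X => (q.1, if c b = c' b then q.1 else q.2) := by
    intro b
    by_cases h : c b = c' b
    · simp only [h, if_true]
      exact measurable_fst.prodMk measurable_fst
    · simp only [h, if_false]
      exact measurable_fst.prodMk measurable_snd
  have hA := measurePreserving_arrowProdEquivProdArrow X X (Fin k) (fun _ => μ) (fun _ => μ)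
  have hTP : ∀ b : Fin k, IsProbabilityMeasure (Measure.map
      (fun z : Fin r → X => (z (c b), z (c' b))) (Measure.pi fun _ : Fin r => μ)) := fun b =>
    Measure.isProbabilityMeasure_map (hT b).aemeasurable
  have hUP : ∀ b : Fin k, IsProbabilityMeasure (Measure.map
      (fun q : X × X => (q.1, if c b = c' b then q.1 else q.2)) (μ.prod μ)) := fun b =>
    Measure.isProbabilityMeasure_map (hU b).aemeasurable
  have h1 := Measure.pi_map_pi (μ := fun _ : Fin k => Measure.pi fun _ : Fin r => μ)
    (f := fun b (z : Fin r → X) => (z (c b), z (c' b))) fun b => (hT b).aemeasurable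
  have h2 := Measure.pi_map_pi (μ := fun _ : Fin k => μ.prod μ)
    (f := fun b (q : X × X) => (q.1, if c b = c' b then q.1 else q.2)) fun b => (hU b).aemeasurable
  have h3 : (Measure.pi fun b : Fin k => Measure.map
      (fun z : Fin r → X => (z (c b), z (c' b))) (Measure.pi fun _ : Fin r => μ)) =
      Measure.pi fun b : Fin k => Measure.map
        (fun q : X × X => (q.1, if c b = c' b then q.1 else q.2)) (μ.prod μ) := by
    congr 1
    funext b
    exact map_two μ (c b) (c' b)
  have mT : Measurable fun (ω : Fin k → Fin r → X) (b : Fin k) => (ω b (c b), ω b (c' b)) :=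
    measurable_pi_lambda _ fun b => (hT b).comp (measurable_pi_apply b)
  have mU : Measurable fun (w : Fin k → X × X) (b : Fin k) =>
      ((w b).1, if c b = c' b then (w b).1 else (w b).2) :=
    measurable_pi_lambda _ fun b => (hU b).comp (measurable_pi_apply b)
  have mQ : Measurable fun q : (Fin k → X) × (Fin k → X) =>
      (q.1, (Finset.univ.filter fun b => c b = c' b).piecewise q.1 q.2) :=
    measurable_fst.prodMk (measurable_pw _)
  have e1 := Measure.map_map (μ := Measure.pi fun _ : Fin k => Measure.pi fun _ : Fin r => μ)
    hA.measurable mT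
  have e2 := Measure.map_map (μ := Measure.pi fun _ : Fin k => μ.prod μ) hA.measurable mU
  have e3 := Measure.map_map (μ := Measure.pi fun _ : Fin k => μ.prod μ) mQ hA.measurable
  rw [hA.map_eq] at e3
  rw [e3]
  have e4 : ((fun q : (Fin k → X) × (Fin k → X) =>
      (q.1, (Finset.univ.filter fun b => c b = c' b).piecewise q.1 q.2)) ∘
      (MeasurableEquiv.arrowProdEquivProdArrow X X (Fin k))) =
      (MeasurableEquiv.arrowProdEquivProdArrow X X (Fin k)) ∘ fun (w : Fin k → X × X) (b : Fin k) =>
      ((w b).1, if c b = c' b then (w b).1 else (w b).2) := by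
    funext w
    refine Prod.ext rfl ?_
    funext b
    show (Finset.univ.filter fun b => c b = c' b).piecewise (fun b => (w b).1)
      (fun b => (w b).2) b = if c b = c' b then (w b).1 else (w b).2
    by_cases h : c b = c' b
    · simp [Finset.piecewise, h]
    · simp [Finset.piecewise, h]
  rw [e4, ← e2]
  erw [h2]
  rw [← h3]
  erw [← h1]
  rw [e1]
  rfl

end Pool.Agent.Helper63.SM
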